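import Pool.Agent.Q143.AR.Clique

/-!
# Natural transformations with Mayer–Vietoris sequences and amalgamated products over retracts
-/

set_option autoImplicit false
set_option linter.unusedSectionVars false
set_option linter.style.haveILetI false

namespace Pool.Agent.Q143.MV

open Monoid

/-- A functor from groups to abelian groups. -/
structure GFun where
  /-- the values on groups -/
  obj : ∀ (G : Type) [Group G], Type
  /-- the values are abelian groups -/
  inst : ∀ (G : Type) [Group G], AddCommGroup (obj G)
  /-- the induced maps -/
  map : ∀ {G H : Type} [Group G] [Group H], (G →* H) → obj G → obj H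
  map_add : ∀ {G H : Type} [Group G] [Group H] (f : G →* H) (x y : obj G),
    map f (x + y) = map f x + map f y
  map_id : ∀ (G : Type) [Group G] (x : obj G), map (MonoidHom.id G) x = x
  map_comp : ∀ {G H K : Type} [Group G] [Group H] [Group K] (g : H →* K) (f : G →* H)
    (x : obj G), map (g.comp f) x = map g (map f x)

attribute [instance] GFun.inst

/-- A natural transformation. -/
structure GNat (H E : GFun) where
  /-- the maps -/
  app : ∀ (G : Type) [Group G], H.obj G → E.obj G
  app_add : ∀ (G : Type) [Group G] (x y : H.obj G), app G (x + y) = app G x + app G y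
  nat : ∀ {G G' : Type} [Group G] [Group G'] (f : G →* G') (x : H.obj G),
    app G' (H.map f x) = E.map f (app G x)

/-- The natural transformation is injective for `G`. -/
def Inj {H E : GFun} (α : GNat H E) (G : Type) [Group G] : Prop :=
  Function.Injective (α.app G)

/-- `P` with the homomorphisms `a` and `b` is the amalgamated product of `A` and `B` over `K`: `i` and
`j` are injective, the square commutes and has the universal property of the pushout of groups. -/
def IsAmalgam {K A B P : Type} [Group K] [Group A] [Group B] [Group P] (i : K →* A) (j : K →* B)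
    (a : A →* P) (b : B →* P) : Prop :=
  Function.Injective i ∧ Function.Injective j ∧ a.comp i = b.comp j ∧
    ∀ (M : Type) [Group M] (f : A →* M) (g : B →* M), f.comp i = g.comp j →
      ∃! h : P →* M, h.comp a = f ∧ h.comp b = g

/-- The elements `x` of `E(A)` and `y` of `E(B)` have the sum `0` in `E(P)`. -/
def SumZero (E : GFun) {A B P : Type} [Group A] [Group B] [Group P] (a : A →* P) (b : B →* P)
    (x : E.obj A) (y : E.obj B) : Prop :=
  E.map a x + E.map b y = 0

/-- The element `z` of `E(P)` is the sum of the images of `x` in `E(A)` and `y` in `E(B)`. -/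
def IsSum (E : GFun) {A B P : Type} [Group A] [Group B] [Group P] (a : A →* P) (b : B →* P)
    (x : E.obj A) (y : E.obj B) (z : E.obj P) : Prop :=
  z = E.map a x + E.map b y

/-- Exactness of the Mayer–Vietoris sequence of an amalgamated product at the sum of the two groups. -/
def MVMiddle (E : GFun) : Prop :=
  ∀ (K A B P : Type) [Group K] [Group A] [Group B] [Group P] (i : K →* A) (j : K →* B)
    (a : A →* P) (b : B →* P), IsAmalgam i j a b → ∀ (x : E.obj A) (y : E.obj B),
      SumZero E a b x y → ∃ c : E.obj K, x = E.map i c ∧ y = - E.map j c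

/-- The part of the Mayer–Vietoris sequence of an amalgamated product at the amalgamated product and
at the amalgamated subgroup: there is a boundary map from the functor `H'` (the functor `H` in the next
degree) such that elements in its kernel come from the two groups, and elements in its image die in
both groups. -/
def MVBoundary (H' H : GFun) : Prop :=
  ∀ (K A B P : Type) [Group K] [Group A] [Group B] [Group P] (i : K →* A) (j : K →* B)
    (a : A →* P) (b : B →* P), IsAmalgam i j a b → ∃ δ : H'.obj P → H.obj K,
      (∀ z, H.map i (δ z) = 0 ∧ H.map j (δ z) = 0) ∧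
      ∀ z, δ z = 0 → ∃ (x : H'.obj A) (y : H'.obj B), IsSum H' a b x y z

/-- For a directed union of subgroups each element of `H(G)` comes from one of them. -/
def Cont (H : GFun) : Prop :=
  ∀ (G : Type) [Group G] (I : Type) [Preorder I] [Nonempty I],
    (∀ i j : I, ∃ k, i ≤ k ∧ j ≤ k) → ∀ S : I → Subgroup G, Monotone S → (∀ g, ∃ i, g ∈ S i) →
    ∀ x : H.obj G, ∃ (i : I) (y : H.obj (S i)), x = H.map (S i).subtype y

namespace GFun

variable (E : GFun) {G G' : Type} [Group G] [Group G']

/-- the induced map as a homomorphism -/
def hom (f : G →* G') : E.obj G →+ E.obj G' := AddMonoidHom.mk' (E.map f) (E.map_add f)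

theorem map_zero (f : G →* G') : E.map f 0 = 0 := (E.hom f).map_zero

theorem map_neg (f : G →* G') (x : E.obj G) : E.map f (-x) = - E.map f x := (E.hom f).map_neg x

end GFun

namespace GNat

variable {H E : GFun} (α : GNat H E) (G : Type) [Group G]

/-- the map as a homomorphism -/
def hom : H.obj G →+ E.obj G := AddMonoidHom.mk' (α.app G) (α.app_add G)

theorem app_zero : α.app G 0 = 0 := (α.hom G).map_zero

theorem app_neg (x : H.obj G) : α.app G (-x) = - α.app G x := (α.hom G).map_neg x

theorem inj_of (h : ∀ x, α.app G x = 0 → x = 0) : Inj α G :=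
  (injective_iff_map_eq_zero (α.hom G)).2 h

end GNat

variable {H' H E : GFun} (α : GNat H E)

/-- injectivity passes to retracts -/
theorem inj_retract {G G' : Type} [Group G] [Group G'] (i : G →* G') (r : G' →* G)
    (h : ∀ g, r (i g) = g) (hG : Inj α G') : Inj α G := by
  have hri : r.comp i = MonoidHom.id G := MonoidHom.ext h
  intro x y hxy
  have h1 : α.app G' (H.map i x) = α.app G' (H.map i y) := by
    rw [α.nat, α.nat, hxy]
  have h2 := congrArg (H.map r) (hG h1)
  rwa [← H.map_comp, ← H.map_comp, hri, H.map_id, H.map_id] at h2

/-- **Amalgamated products over retracts.** -/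
theorem inj_amalgam {β : GNat H' E} (hH : MVBoundary H' H) (hE : MVMiddle E) {K A B P : Type}
    [Group K] [Group A] [Group B] [Group P] {i : K →* A} {j : K →* B} {a : A →* P} {b : B →* P}
    (hP : IsAmalgam i j a b) (r : B →* K) (hr : ∀ k, r (j k) = k) (hA : Inj β A) (hB : Inj β B) :
    Inj β P := by
  have hrc : r.comp j = MonoidHom.id K := MonoidHom.ext hr
  obtain ⟨δ, hδ, hδ'⟩ := hH K A B P i j a b hP
  refine β.inj_of P (fun z hz => ?_)
  have h1 : δ z = 0 := by
    have h2 := congrArg (H.map r) (hδ z).2
    rwa [H.map_zero, ← H.map_comp, hrc, H.map_id] at h2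
  obtain ⟨x, y, hxy⟩ := hδ' z h1
  unfold IsSum at hxy
  subst hxy
  rw [β.app_add, β.nat, β.nat] at hz
  obtain ⟨c, hc, hc'⟩ := hE K A B P i j a b hP _ _ hz
  -- the element of the amalgamated subgroup
  have h3 : c = β.app K (- H'.map r y) := by
    have h4 := congrArg (E.map r) hc'
    rw [E.map_neg, ← E.map_comp, hrc, E.map_id, ← β.nat] at h4
    rw [β.app_neg, h4, neg_neg]
  have h5 : x = H'.map i (- H'.map r y) := by
    apply hA
    rw [β.nat, ← h3, hc]
  have h6 : y = - H'.map j (- H'.map r y) := by
    apply hB
    rw [β.app_neg, β.nat, ← h3, hc']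
  have h7 : ∀ d : H'.obj K, H'.map a (H'.map i d) + H'.map b (- H'.map j d) = 0 := by
    intro d
    rw [H'.map_neg, ← H'.map_comp, ← H'.map_comp, hP.2.2.1, add_neg_cancel]
  have h8 : H'.map a x + H'.map b y =
      H'.map a (H'.map i (- H'.map r y)) + H'.map b (- H'.map j (- H'.map r y)) := by
    rw [← h5, ← h6]
  rw [h8]
  exact h7 _

theorem isAmalgam_pushout {K : Type} [Group K] {G : Bool → Type} [∀ b, Group (G b)]
    {φ : ∀ b, K →* G b} (h : ∀ b, Function.Injective (φ b)) :
    IsAmalgam (φ false) (φ true) (PushoutI.of (φ := φ) false) (PushoutI.of (φ := φ) true) := by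
  refine ⟨h false, h true, ?_, ?_⟩
  · rw [PushoutI.of_comp_eq_base, PushoutI.of_comp_eq_base]
  · intro M _ f g hfg
    let F : ∀ b, G b →* M := fun b => match b with
      | false => f
      | true => g
    have hF : ∀ b, (F b).comp (φ b) = f.comp (φ false) := by
      intro b
      cases b with
      | false => rfl
      | true => exact hfg.symm
    refine ⟨PushoutI.lift F (f.comp (φ false)) hF, ⟨?_, ?_⟩, ?_⟩
    · exact MonoidHom.ext fun x => PushoutI.lift_of F _ hF (i := false) x
    · exact MonoidHom.ext fun x => PushoutI.lift_of F _ hF (i := true) x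
    · rintro k ⟨hk, hk'⟩
      refine PushoutI.hom_ext_nonempty (fun b => ?_)
      cases b with
      | false =>
        rw [hk]
        exact MonoidHom.ext fun x => (PushoutI.lift_of F _ hF (i := false) x).symm
      | true =>
        rw [hk']
        exact MonoidHom.ext fun x => (PushoutI.lift_of F _ hF (i := true) x).symm

theorem inj_push {β : GNat H' E} (hH : MVBoundary H' H) (hEm : MVMiddle E) {K : Type} [Group K]
    {G : Bool → Type} [∀ b, Group (G b)] {φ : ∀ b, K →* G b} (h0 : Function.Injective (φ false))
    (r : G true →* K) (hr : ∀ k, r (φ true k) = k) (hG : ∀ b, Inj β (G b)) :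
    Inj β (PushoutI φ) :=
  inj_amalgam hH hEm (isAmalgam_pushout (fun b => by
    cases b with
    | false => exact h0
    | true => exact Function.LeftInverse.injective hr)) r hr (hG false) (hG true)

end Pool.Agent.Q143.MV
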