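import Pool.Agent.Q143.MV.Basic

/-!
# Natural transformations with Mayer–Vietoris sequences and HNN extensions over retracts
-/

set_option autoImplicit false
set_option linter.unusedSectionVars false
set_option linter.style.haveILetI false

namespace Pool.Agent.Q143.MV

/-- the isomorphism of the associated subgroups as a homomorphism to `G` -/
def jh {G : Type} [Group G] {A B : Subgroup G} (φ : A ≃* B) : A →* G :=
  B.subtype.comp φ.toMonoidHom

/-- The iterates of an endomorphism. -/
def itr {A : Type} [Group A] (θ : A →* A) : ℕ → (A →* A)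
  | 0 => MonoidHom.id A
  | m + 1 => (itr θ m).comp θ

/-- The Mayer–Vietoris sequences of HNN extensions, for a natural transformation `β` of functors and the
natural transformation `α` one degree lower: there are boundary maps which commute with the natural
transformations, elements in the kernel of the boundary map of `H'` come from the base group, the two
maps from the associated subgroup become equal in the HNN extension, and elements of `E'` of the base
group which die in the HNN extension are differences of the two images of an element of the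
associated subgroup. -/
def HnnLadder {H' H E' E : GFun} (β : GNat H' E') (α : GNat H E) : Prop :=
  ∀ (G : Type) [Group G] (A B : Subgroup G) (φ : A ≃* B),
    (∃ (δ : H'.obj (HNNExtension G A B φ) → H.obj A) (ε : E'.obj (HNNExtension G A B φ) → E.obj A),
      ε 0 = 0 ∧ (∀ x, α.app A (δ x) = ε (β.app _ x)) ∧
      ∀ x, δ x = 0 → ∃ y : H'.obj G, x = H'.map HNNExtension.of y) ∧
    (∀ d : H'.obj A, H'.map (HNNExtension.of (φ := φ)) (H'.map A.subtype d) =
      H'.map (HNNExtension.of (φ := φ)) (H'.map (jh φ) d)) ∧
    ∀ y : E'.obj G, E'.map (HNNExtension.of (φ := φ)) y = 0 →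
      ∃ c : E'.obj A, y = E'.map A.subtype c - E'.map (jh φ) c

variable {H' H E' E : GFun} {β : GNat H' E'} {α : GNat H E}

theorem GFun.map_sub (E : GFun) {G G' : Type} [Group G] [Group G'] (f : G →* G') (x y : E.obj G) :
    E.map f (x - y) = E.map f x - E.map f y := (E.hom f).map_sub x y

theorem GNat.app_sub {H E : GFun} (α : GNat H E) (G : Type) [Group G] (x y : H.obj G) :
    α.app G (x - y) = α.app G x - α.app G y := (α.hom G).map_sub x y

theorem itr_sol {A : Type} [Group A] (θ : A →* A) (c : E'.obj A) (w : H'.obj A)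
    (h : c - E'.map θ c = β.app A w) (m : ℕ) :
    ∃ d : H'.obj A, c = β.app A d + E'.map (itr θ m) c := by
  induction m with
  | zero => exact ⟨0, by rw [β.app_zero, zero_add]; exact (E'.map_id A c).symm⟩
  | succ m ih =>
    obtain ⟨d, hd⟩ := ih
    refine ⟨d + H'.map (itr θ m) w, ?_⟩
    have h1 : E'.map (itr θ m) c = β.app A (H'.map (itr θ m) w) + E'.map (itr θ (m + 1)) c := by
      have h2 : c = β.app A w + E'.map θ c := by rw [← h, sub_add_cancel]
      conv_lhs => rw [h2, E'.map_add, ← β.nat, ← E'.map_comp]
      rfl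
    rw [β.app_add, add_assoc, ← h1]
    exact hd

/-- **HNN extensions over retracts.** -/
theorem inj_hnn (hL : HnnLadder β α) {G : Type} [Group G] {A B : Subgroup G} {φ : A ≃* B}
    (r : G →* A) (hr : ∀ a : A, r a = a) (m : ℕ)
    (hm : ∀ a : A, jh φ (itr (r.comp (jh φ)) m a) = itr (r.comp (jh φ)) m a)
    (hβ : Inj β G) (hα : Inj α G) : Inj β (HNNExtension G A B φ) := by
  obtain ⟨⟨δ, ε, hε, hδε, hδ⟩, hcomp, hker⟩ := hL G A B φ
  have hαA : Inj α A := inj_retract α A.subtype r hr hα
  have hrc : r.comp A.subtype = MonoidHom.id A := MonoidHom.ext hr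
  refine β.inj_of _ (fun x hx => ?_)
  have h1 : δ x = 0 := by
    apply hαA
    rw [hδε, hx, hε, α.app_zero]
  obtain ⟨y, rfl⟩ := hδ x h1
  rw [β.nat] at hx
  obtain ⟨c, hc⟩ := hker _ hx
  have h2 : c - E'.map (r.comp (jh φ)) c = β.app A (H'.map r y) := by
    rw [β.nat, hc, E'.map_sub, ← E'.map_comp, ← E'.map_comp, hrc, E'.map_id]
  obtain ⟨d, hd⟩ := itr_sol _ c _ h2 m
  have h3 : (jh φ).comp (itr (r.comp (jh φ)) m) = A.subtype.comp (itr (r.comp (jh φ)) m) :=
    MonoidHom.ext hm
  have h4 : E'.map A.subtype c - E'.map (jh φ) c =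
      β.app G (H'.map A.subtype d - H'.map (jh φ) d) := by
    rw [β.app_sub, β.nat, β.nat]
    conv_lhs => rw [hd]
    rw [E'.map_add, E'.map_add, ← E'.map_comp, ← E'.map_comp, h3]
    abel
  have h5 : y = H'.map A.subtype d - H'.map (jh φ) d := hβ (hc.trans h4)
  rw [h5, H'.map_sub, hcomp, sub_self]

end Pool.Agent.Q143.MV
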