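import Pool.Agent.Q143.MV.Basic

/-!
# Semidirect products of free products with permuted factors, and natural transformations
-/

set_option autoImplicit false
set_option linter.unusedSectionVars false
set_option linter.style.haveILetI false

namespace Pool.Agent.Q143.MV

open Monoid Pool.Agent.Q143.AR

section

variable {Q X K : Type} [Group Q] [Group K] (T : Twist Q X K)

/-- the stabilizer of an index -/
def stb (x : X) : Subgroup Q where
  carrier := {q | T.a q x = x}
  one_mem' := by
    change T.a 1 x = x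
    rw [map_one]
    rfl
  mul_mem' := by
    intro q q' hq hq'
    change T.a (q * q') x = x
    rw [map_mul]
    change T.a q (T.a q' x) = x
    rw [show T.a q' x = x from hq', show T.a q x = x from hq]
  inv_mem' := by
    intro q hq
    change T.a q⁻¹ x = x
    conv_lhs => rw [← show T.a q x = x from hq]
    exact T.a_inv q x

/-- the subgroup generated by `Q` and the copies of `K` with index in `S` -/
def tS (S : Set X) : Subgroup T.TW :=
  Subgroup.closure ({g | ∃ x ∈ S, ∃ k, g = T.e x k} ∪ {g | ∃ q, g = T.r q})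

/-- the subgroup generated by the copy of `K` with index `x` and the stabilizer of `x` -/
def vx (x : X) : Subgroup T.TW :=
  Subgroup.closure ({g | ∃ k, g = T.e x k} ∪ {g | ∃ q ∈ stb T x, g = T.r q})

variable {T}

theorem e_mem_tS {S : Set X} {x : X} (hx : x ∈ S) (k : K) : T.e x k ∈ tS T S :=
  Subgroup.subset_closure (Or.inl ⟨x, hx, k, rfl⟩)

theorem r_mem_tS {S : Set X} (q : Q) : T.r q ∈ tS T S :=
  Subgroup.subset_closure (Or.inr ⟨q, rfl⟩)

theorem e_mem_vx (x : X) (k : K) : T.e x k ∈ vx T x :=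
  Subgroup.subset_closure (Or.inl ⟨k, rfl⟩)

theorem r_mem_vx {x : X} {q : Q} (hq : q ∈ stb T x) : T.r q ∈ vx T x :=
  Subgroup.subset_closure (Or.inr ⟨q, hq, rfl⟩)

theorem tS_mono {S S' : Set X} (h : S ⊆ S') : tS T S ≤ tS T S' := by
  refine (Subgroup.closure_le _).2 ?_
  rintro g (⟨x, hx, k, rfl⟩ | ⟨q, rfl⟩)
  · exact e_mem_tS (h hx) k
  · exact r_mem_tS q

theorem vx_le {S : Set X} {x : X} (hx : x ∈ S) : vx T x ≤ tS T S := by
  refine (Subgroup.closure_le _).2 ?_
  rintro g (⟨k, rfl⟩ | ⟨q, _, rfl⟩)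
  · exact e_mem_tS hx k
  · exact r_mem_tS q

/-- homomorphisms which agree on the generators -/
theorem tS_ext {S : Set X} {M : Type} [Group M] {f g : tS T S →* M}
    (h1 : ∀ (x : X) (hx : x ∈ S) (k : K), f ⟨T.e x k, e_mem_tS hx k⟩ = g ⟨T.e x k, e_mem_tS hx k⟩)
    (h2 : ∀ q, f ⟨T.r q, r_mem_tS q⟩ = g ⟨T.r q, r_mem_tS q⟩) : f = g := by
  refine MonoidHom.ext ?_
  rintro ⟨y, hy⟩
  induction hy using Subgroup.closure_induction with
  | mem y hy =>
    rcases hy with ⟨x, hx, k, rfl⟩ | ⟨q, rfl⟩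
    · exact h1 x hx k
    · exact h2 q
  | one => exact (map_one f).trans (map_one g).symm
  | mul a b ha hb iha ihb =>
    have e1 : ∀ k : tS T S →* M, k ((⟨a, ha⟩ : tS T S) * ⟨b, hb⟩) = k ⟨a, ha⟩ * k ⟨b, hb⟩ :=
      fun k => map_mul k _ _
    change f ((⟨a, ha⟩ : tS T S) * ⟨b, hb⟩) = g ((⟨a, ha⟩ : tS T S) * ⟨b, hb⟩)
    rw [e1, e1, iha, ihb]
  | inv a ha iha =>
    have e1 : ∀ k : tS T S →* M, k (⟨a, ha⟩ : tS T S)⁻¹ = (k ⟨a, ha⟩)⁻¹ := fun k => map_inv k _
    change f (⟨a, ha⟩ : tS T S)⁻¹ = g (⟨a, ha⟩ : tS T S)⁻¹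
    rw [e1, e1, iha]

theorem vx_ext {x : X} {M : Type} [Group M] {f g : vx T x →* M}
    (h1 : ∀ k : K, f ⟨T.e x k, e_mem_vx x k⟩ = g ⟨T.e x k, e_mem_vx x k⟩)
    (h2 : ∀ (q : Q) (hq : q ∈ stb T x), f ⟨T.r q, r_mem_vx hq⟩ = g ⟨T.r q, r_mem_vx hq⟩) :
    f = g := by
  refine MonoidHom.ext ?_
  rintro ⟨y, hy⟩
  induction hy using Subgroup.closure_induction with
  | mem y hy =>
    rcases hy with ⟨k, rfl⟩ | ⟨q, hq, rfl⟩
    · exact h1 k
    · exact h2 q hq
  | one => exact (map_one f).trans (map_one g).symm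
  | mul a b ha hb iha ihb =>
    have e1 : ∀ k : vx T x →* M, k ((⟨a, ha⟩ : vx T x) * ⟨b, hb⟩) = k ⟨a, ha⟩ * k ⟨b, hb⟩ :=
      fun k => map_mul k _ _
    change f ((⟨a, ha⟩ : vx T x) * ⟨b, hb⟩) = g ((⟨a, ha⟩ : vx T x) * ⟨b, hb⟩)
    rw [e1, e1, iha, ihb]
  | inv a ha iha =>
    have e1 : ∀ k : vx T x →* M, k (⟨a, ha⟩ : vx T x)⁻¹ = (k ⟨a, ha⟩)⁻¹ := fun k => map_inv k _
    change f (⟨a, ha⟩ : vx T x)⁻¹ = g (⟨a, ha⟩ : vx T x)⁻¹
    rw [e1, e1, iha]

variable (T)

/-- the inclusion of the stabilizer in the first group -/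
def ii (S : Set X) (x : X) : stb T x →* tS T S :=
  (T.r.comp (stb T x).subtype).codRestrict _ (fun q => r_mem_tS q.1)

/-- the inclusion of the stabilizer in the second group -/
def jj (x : X) : stb T x →* vx T x :=
  (T.r.comp (stb T x).subtype).codRestrict _ (fun q => r_mem_vx q.2)

theorem r_injective : Function.Injective T.r := SemidirectProduct.inr_injective

theorem ii_injective (S : Set X) (x : X) : Function.Injective (ii T S x) := by
  intro a b h
  exact Subtype.ext (r_injective T (congrArg Subtype.val h))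

/-- the retraction of the second group on the stabilizer -/
def rv (x : X) : vx T x →* stb T x :=
  (SemidirectProduct.rightHom.comp (vx T x).subtype).codRestrict _ (by
    rintro ⟨g, hg⟩
    change SemidirectProduct.rightHom g ∈ stb T x
    have h1 : vx T x ≤ (stb T x).comap SemidirectProduct.rightHom := by
      refine (Subgroup.closure_le _).2 ?_
      rintro g (⟨k, rfl⟩ | ⟨q, hq, rfl⟩)
      · change (1 : Q) ∈ stb T x
        exact Subgroup.one_mem _
      · exact hq
    exact h1 hg)

theorem rv_jj (x : X) (q : stb T x) : rv T x (jj T x q) = q := rfl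

variable {T}

section univ

variable {S : Set X} {x : X} (hS : ∀ q y, y ∈ S → T.a q y ∈ S) (hx : x ∉ S) {M : Type} [Group M]
  (f : tS T S →* M) (g : vx T x →* M)
  (hfg : f.comp (ii T S x) = g.comp (jj T x))

/-- the values on `Q` -/
def vv : Q →* M := f.comp (T.r.codRestrict _ (fun q => r_mem_tS q))

open Classical in
/-- the element which moves `x` to `y` -/
noncomputable def mv (T : Twist Q X K) (x y : X) : Q := if h : ∃ q, T.a q x = y then h.choose else 1

theorem mv_spec {x y : X} (h : ∃ q, T.a q x = y) : T.a (mv T x y) x = y := by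
  unfold mv
  rw [dif_pos h]
  exact h.choose_spec

/-- the copy of `K` in the second group -/
def ev (T : Twist Q X K) (x : X) : K →* vx T x := (T.e x).codRestrict _ (fun k => e_mem_vx x k)

open Classical in
/-- the values on the copies of `K` -/
noncomputable def uu (y : X) : K →* M :=
  if hy : y ∈ S then f.comp ((T.e y).codRestrict _ (fun k => e_mem_tS hy k))
  else if ∃ q, T.a q x = y then
    (MulAut.conj (vv f (mv T x y))).toMonoidHom.comp
      ((g.comp (ev T x)).comp (T.c (mv T x y)⁻¹ y))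
  else 1

theorem uu_S {y : X} (hy : y ∈ S) (k : K) :
    uu f g y k = f ⟨T.e y k, e_mem_tS hy k⟩ := by
  unfold uu
  rw [dif_pos hy]
  rfl

include hS hx in
theorem not_S {y : X} (h : ∃ q, T.a q x = y) : y ∉ S := by
  obtain ⟨q, rfl⟩ := h
  intro hy
  have h1 := hS q⁻¹ _ hy
  rw [T.a_inv] at h1
  exact hx h1

include hS hx in
theorem uu_O {y : X} (h : ∃ q, T.a q x = y) (k : K) :
    uu f g y k = vv f (mv T x y) * g (ev T x (T.c (mv T x y)⁻¹ y k)) * (vv f (mv T x y))⁻¹ := by
  unfold uu
  rw [dif_neg (not_S hS hx h), if_pos h]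
  rfl

theorem uu_N {y : X} (hy : y ∉ S) (h : ¬ ∃ q, T.a q x = y) (k : K) : uu f g y k = 1 := by
  unfold uu
  rw [dif_neg hy, if_neg h]
  rfl

include hfg in
theorem fg (q : Q) (hq : q ∈ stb T x) : vv f q = g ⟨T.r q, r_mem_vx hq⟩ :=
  DFunLike.congr_fun hfg ⟨q, hq⟩

include hfg in
theorem g_conj (q : Q) (hq : q ∈ stb T x) (k : K) :
    vv f q * g (ev T x k) * (vv f q)⁻¹ = g (ev T x (T.c q x k)) := by
  rw [fg f g hfg q hq, ← map_inv, ← map_mul, ← map_mul]
  congr 1
  apply Subtype.ext
  change T.r q * T.e x k * (T.r q)⁻¹ = T.e x (T.c q x k)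
  rw [T.rel, show T.a q x = x from hq]

include hS hx hfg in
theorem uu_rel (q : Q) (y : X) (k : K) :
    uu f g (T.a q y) (T.c q y k) = vv f q * uu f g y k * (vv f q)⁻¹ := by
  by_cases hy : y ∈ S
  · rw [uu_S f g hy, uu_S f g (hS q y hy)]
    change _ = f _ * f _ * (f _)⁻¹
    rw [← map_inv, ← map_mul, ← map_mul]
    congr 1
    exact Subtype.ext (T.rel q y k).symm
  · by_cases ho : ∃ p, T.a p x = y
    · have ho' : ∃ p, T.a p x = T.a q y := by
        obtain ⟨p, hp⟩ := ho
        refine ⟨q * p, ?_⟩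
        rw [map_mul]
        change T.a q (T.a p x) = _
        rw [hp]
      rw [uu_O hS hx f g ho, uu_O hS hx f g ho']
      have h1 := mv_spec ho
      have h2 := mv_spec ho'
      generalize mv T x y = m at *
      generalize mv T x (T.a q y) = m' at *
      have hs : m'⁻¹ * q * m ∈ stb T x := by
        change T.a (m'⁻¹ * q * m) x = x
        rw [map_mul, map_mul]
        change T.a m'⁻¹ (T.a q (T.a m x)) = x
        rw [h1, ← h2, T.a_inv]
      have h3 : T.c m'⁻¹ (T.a q y) (T.c q y k) = T.c (m'⁻¹ * q * m) x (T.c m⁻¹ y k) := by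
        rw [← T.mul]
        conv_rhs => rw [show x = T.a m⁻¹ y by rw [← h1, T.a_inv]]
        rw [← T.mul]
        congr 1
        group
      rw [h3, ← g_conj f g hfg _ hs]
      have h4 : vv f m' * vv f (m'⁻¹ * q * m) = vv f q * vv f m := by
        rw [← map_mul, ← map_mul]
        congr 1
        group
      calc vv f m' * (vv f (m'⁻¹ * q * m) * g (ev T x (T.c m⁻¹ y k)) *
            (vv f (m'⁻¹ * q * m))⁻¹) * (vv f m')⁻¹
          = (vv f m' * vv f (m'⁻¹ * q * m)) * g (ev T x (T.c m⁻¹ y k)) *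
            (vv f m' * vv f (m'⁻¹ * q * m))⁻¹ := by group
        _ = _ := by rw [h4]; group
    · have ho' : ¬ ∃ p, T.a p x = T.a q y := by
        rintro ⟨p, hp⟩
        refine ho ⟨q⁻¹ * p, ?_⟩
        rw [map_mul]
        change T.a q⁻¹ (T.a p x) = _
        rw [hp, T.a_inv]
      have hy' : T.a q y ∉ S := by
        intro h
        have h1 := hS q⁻¹ _ h
        rw [T.a_inv] at h1
        exact hy h1
      rw [uu_N f g hy ho, uu_N f g hy' ho', mul_one, mul_inv_cancel]

/-- the homomorphism -/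
noncomputable def HH : T.TW →* M := T.lift (uu f g) (vv f) (uu_rel hS hx f g hfg)

end univ

/-- the orbit -/
def orb (T : Twist Q X K) (x : X) : Set X := {y | ∃ q, T.a q x = y}

/-- the inclusion in the group of a larger set -/
def incl {S S' : Set X} (h : S ⊆ S') : tS T S →* tS T S' := Subgroup.inclusion (tS_mono h)

/-- the inclusion of the second group -/
def incv {S : Set X} {x : X} (h : x ∈ S) : vx T x →* tS T S := Subgroup.inclusion (vx_le h)

theorem mem_orb (x : X) : x ∈ orb T x := ⟨1, by rw [map_one]; rfl⟩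

/-- **The amalgamated product.** -/
theorem isAmalgam {S : Set X} {x : X} (hS : ∀ q y, y ∈ S → T.a q y ∈ S) (hx : x ∉ S) :
    IsAmalgam (ii T S x) (jj T x) (incl (T := T) (S := S) (S' := S ∪ orb T x) Set.subset_union_left)
      (incv (T := T) (S := S ∪ orb T x) (Or.inr (mem_orb x))) := by
  refine ⟨ii_injective T S x, Function.LeftInverse.injective (rv_jj T x), rfl, ?_⟩
  intro M _ f g hfg
  have he : ∀ y k, HH hS hx f g hfg (T.e y k) = uu f g y k := fun y k => T.lift_e _ _ _ y k
  have hr : ∀ q, HH hS hx f g hfg (T.r q) = vv f q := fun q => T.lift_r _ _ _ q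
  refine ⟨(HH hS hx f g hfg).comp (tS T (S ∪ orb T x)).subtype, ⟨?_, ?_⟩, ?_⟩
  · refine tS_ext (fun y hy k => ?_) (fun q => ?_)
    · exact (he y k).trans (uu_S f g hy k)
    · exact hr q
  · refine vx_ext (fun k => ?_) (fun q hq => ?_)
    · refine (he x k).trans ?_
      rw [uu_O hS hx f g (mem_orb x)]
      have h1 : T.a (mv T x x) x = x := mv_spec (mem_orb x)
      rw [g_conj f g hfg _ h1]
      congr 1
      apply Subtype.ext
      change T.e x _ = T.e x k
      congr 1
      have h2 : T.a (mv T x x)⁻¹ x = x := (stb T x).inv_mem h1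
      conv_lhs => rw [← h2]
      rw [h2]
      have h3 := T.mul (mv T x x) (mv T x x)⁻¹ x k
      rw [h2, mul_inv_cancel, T.one] at h3
      exact h3.symm
    · exact (hr q).trans (fg f g hfg q hq)
  · rintro h ⟨h1, h2⟩
    refine tS_ext (fun y hy k => ?_) (fun q => ?_)
    · change _ = HH hS hx f g hfg (T.e y k)
      rw [he]
      rcases hy with hy | hy
      · rw [uu_S f g hy]
        exact DFunLike.congr_fun h1 ⟨T.e y k, e_mem_tS hy k⟩
      · rw [uu_O hS hx f g hy]
        have h3 := mv_spec hy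
        generalize mv T x y = m at *
        have h4 : ∀ q, h ⟨T.r q, r_mem_tS q⟩ = vv f q := fun q =>
          DFunLike.congr_fun h1 ⟨T.r q, r_mem_tS q⟩
        have hxo : x ∈ S ∪ orb T x := Or.inr (mem_orb x)
        have h5 : ∀ k, h ⟨T.e x k, e_mem_tS hxo k⟩ = g (ev T x k) :=
          fun k => DFunLike.congr_fun h2 (ev T x k)
        rw [← h4, ← h5, ← map_inv, ← map_mul, ← map_mul]
        congr 1
        apply Subtype.ext
        change T.e y k = T.r m * T.e x (T.c m⁻¹ y k) * (T.r m)⁻¹
        rw [T.rel, h3]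
        congr 1
        have h6 := T.mul m m⁻¹ y k
        have h7 : T.a m⁻¹ y = x := by rw [← h3, T.a_inv]
        rw [h7, mul_inv_cancel, T.one] at h6
        exact h6
    · change _ = HH hS hx f g hfg (T.r q)
      rw [hr]
      exact DFunLike.congr_fun h1 ⟨T.r q, r_mem_tS q⟩

/-! ## the induction -/

open Classical in
/-- killing the copies with index outside `S` -/
noncomputable def kil (T : Twist Q X K) (S : Set X) (hS : ∀ q y, y ∈ S → T.a q y ∈ S) :
    T.TW →* T.TW :=
  T.lift (fun x => if x ∈ S then T.e x else 1) T.r (by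
    intro q x k
    by_cases hx : x ∈ S
    · rw [if_pos hx, if_pos (hS q x hx), T.rel]
    · have hx' : T.a q x ∉ S := by
        intro h
        have h1 := hS q⁻¹ _ h
        rw [T.a_inv] at h1
        exact hx h1
      rw [if_neg hx, if_neg hx']
      change (1 : T.TW) = T.r q * 1 * (T.r q)⁻¹
      rw [mul_one, mul_inv_cancel])

theorem kil_mem (S : Set X) (hS : ∀ q y, y ∈ S → T.a q y ∈ S) (g : T.TW) :
    kil T S hS g ∈ tS T S := by
  classical
  have h1 : (⊤ : Subgroup T.TW) ≤ (tS T S).comap (kil T S hS) := by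
    have h2 : (⊤ : Subgroup T.TW) ≤ tS T Set.univ := by
      intro g _
      rw [← SemidirectProduct.inl_left_mul_inr_right g]
      refine Subgroup.mul_mem _ ?_ (r_mem_tS g.right)
      generalize g.left = z
      induction z using nn_ind with
      | one => rw [map_one]; exact Subgroup.one_mem _
      | gen x k => exact e_mem_tS (Set.mem_univ x) k
      | mul a b ha hb => rw [map_mul]; exact Subgroup.mul_mem _ ha hb
    refine h2.trans ((Subgroup.closure_le ((tS T S).comap (kil T S hS))).2 ?_)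
    rintro g (⟨x, hx0, k, rfl⟩ | ⟨q, rfl⟩)
    · change kil T S hS (T.e x k) ∈ tS T S
      rw [kil, T.lift_e]
      by_cases hx : x ∈ S
      · rw [if_pos hx]
        exact e_mem_tS hx k
      · rw [if_neg hx]
        exact Subgroup.one_mem _
    · change kil T S hS (T.r q) ∈ tS T S
      rw [kil, T.lift_r]
      exact r_mem_tS q
  exact h1 (Subgroup.mem_top g)

/-- the retraction -/
noncomputable def rS (T : Twist Q X K) (S : Set X) (hS : ∀ q y, y ∈ S → T.a q y ∈ S) :
    T.TW →* tS T S := (kil T S hS).codRestrict _ (kil_mem S hS)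

theorem rS_comp (S : Set X) (hS : ∀ q y, y ∈ S → T.a q y ∈ S) :
    (rS T S hS).comp (tS T S).subtype = MonoidHom.id _ := by
  classical
  refine tS_ext (fun x hx k => ?_) (fun q => ?_)
  · apply Subtype.ext
    change kil T S hS (T.e x k) = T.e x k
    rw [kil, T.lift_e, if_pos hx]
  · apply Subtype.ext
    change kil T S hS (T.r q) = T.r q
    rw [kil, T.lift_r]

/-- the union of the orbits -/
def orbs (T : Twist Q X K) (F : Finset X) : Set X := {y | ∃ x ∈ F, y ∈ orb T x}

theorem orb_inv {x y : X} (q : Q) (h : y ∈ orb T x) : T.a q y ∈ orb T x := by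
  obtain ⟨p, rfl⟩ := h
  exact ⟨q * p, by rw [map_mul]; rfl⟩

theorem orbs_inv (F : Finset X) (q : Q) (y : X) (h : y ∈ orbs T F) : T.a q y ∈ orbs T F := by
  obtain ⟨x, hx, hy⟩ := h
  exact ⟨x, hx, orb_inv q hy⟩

theorem mem_tS_fin (g : T.TW) : ∃ F : Finset X, g ∈ tS T (orbs T F) := by
  classical
  have key : ∀ z : NN X K, ∃ F : Finset X, SemidirectProduct.inl z ∈ tS T (orbs T F) := by
    intro z
    induction z using nn_ind with
    | one => exact ⟨∅, by rw [map_one]; exact Subgroup.one_mem _⟩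
    | gen x k =>
      have hx : x ∈ orbs T {x} := ⟨x, Finset.mem_singleton_self x, mem_orb x⟩
      exact ⟨{x}, e_mem_tS hx k⟩
    | mul a b ha hb =>
      obtain ⟨F, hF⟩ := ha
      obtain ⟨F', hF'⟩ := hb
      refine ⟨F ∪ F', ?_⟩
      rw [map_mul]
      refine Subgroup.mul_mem _ (tS_mono ?_ hF) (tS_mono ?_ hF')
      · rintro y ⟨x, hx, hy⟩
        exact ⟨x, Finset.mem_union_left _ hx, hy⟩
      · rintro y ⟨x, hx, hy⟩
        exact ⟨x, Finset.mem_union_right _ hx, hy⟩
  obtain ⟨F, hF⟩ := key g.left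
  refine ⟨F, ?_⟩
  rw [← SemidirectProduct.inl_left_mul_inr_right g]
  exact Subgroup.mul_mem _ hF (r_mem_tS g.right)

variable {H' H E : GFun} {β : GNat H' E}

theorem fin_perm (hH : MVBoundary H' H) (hE : MVMiddle E) (hQ : Inj β Q)
    (hv : ∀ x, Inj β (vx T x)) (F : Finset X) : Inj β (tS T (orbs T F)) := by
  classical
  induction F using Finset.induction_on with
  | empty =>
    have h0 : orbs T ∅ = ∅ := by
      ext y
      refine ⟨?_, fun h => h.elim⟩
      rintro ⟨x, hx, _⟩
      exact absurd hx (Finset.notMem_empty x)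
    refine inj_retract β (SemidirectProduct.rightHom.comp (tS T (orbs T ∅)).subtype)
      (T.r.codRestrict _ (fun q => r_mem_tS q)) ?_ hQ
    intro g
    have h1 : ((T.r.codRestrict (tS T (orbs T ∅)) (fun q => r_mem_tS q)).comp
        (SemidirectProduct.rightHom.comp (tS T (orbs T ∅)).subtype)) = MonoidHom.id _ := by
      refine tS_ext (fun x hx k => ?_) (fun q => ?_)
      · rw [h0] at hx
        exact hx.elim
      · rfl
    exact DFunLike.congr_fun h1 g
  | insert x F hx ih =>
    by_cases hxS : x ∈ orbs T F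
    · have h1 : orbs T (insert x F) = orbs T F := by
        ext y
        constructor
        · rintro ⟨z, hz, hy⟩
          rcases Finset.mem_insert.1 hz with rfl | hz
          · obtain ⟨q, rfl⟩ := hy
            exact orbs_inv F q z hxS
          · exact ⟨z, hz, hy⟩
        · rintro ⟨z, hz, hy⟩
          exact ⟨z, Finset.mem_insert_of_mem hz, hy⟩
      rw [h1]
      exact ih
    · have h1 : orbs T (insert x F) = orbs T F ∪ orb T x := by
        ext y
        constructor
        · rintro ⟨z, hz, hy⟩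
          rcases Finset.mem_insert.1 hz with rfl | hz
          · exact Or.inr hy
          · exact Or.inl ⟨z, hz, hy⟩
        · rintro (⟨z, hz, hy⟩ | hy)
          · exact ⟨z, Finset.mem_insert_of_mem hz, hy⟩
          · exact ⟨x, Finset.mem_insert_self x F, hy⟩
      rw [h1]
      exact inj_amalgam hH hE (isAmalgam (orbs_inv F) hxS) (rv T x) (rv_jj T x) ih (hv x)

/-- **Semidirect products of free products with permuted factors.** -/
theorem perm_inj (hH : MVBoundary H' H) (hc : Cont H') (hE : MVMiddle E) (hQ : Inj β Q)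
    (hv : ∀ x, Inj β (vx T x)) : Inj β T.TW := by
  classical
  refine β.inj_of _ (fun z hz => ?_)
  obtain ⟨F, y, rfl⟩ := hc T.TW (Finset X) (fun i j => ⟨i ∪ j,
      Finset.subset_union_left, Finset.subset_union_right⟩) (fun F => tS T (orbs T F))
      (fun F F' hFF => tS_mono (by
        rintro y ⟨x, hx, hy⟩
        exact ⟨x, hFF hx, hy⟩)) (fun g => mem_tS_fin g) z
  rw [β.nat] at hz
  have h1 := congrArg (E.map (rS T (orbs T F) (orbs_inv F))) hz
  rw [← E.map_comp, E.map_zero, rS_comp, E.map_id] at h1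
  have h3 : y = 0 := fin_perm hH hE hQ hv F (by rw [h1, β.app_zero])
  rw [h3, H'.map_zero]

end

end Pool.Agent.Q143.MV
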