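import Pool.Agent.Q143.MV.Perm
import Pool.Agent.Q143.AR.TF

/-!
# Semidirect products of free products with permuted factors: membership in a class
-/

set_option autoImplicit false
set_option linter.unusedSectionVars false

namespace Pool.Agent.Q143.MV

open Monoid Pool.Agent.Y462.SS Pool.Agent.Q152.WP Pool.Agent.Q143.AR Pool.Agent.Q105.FJ

variable {C : ∀ (G : Type) [Group G], Prop} {Q X K : Type} [Group Q] [Group K] (T : Twist Q X K)

theorem e_injective (x : X) : Function.Injective (T.e x) := by
  have h1 : Function.Injective (nof K x) := CoprodI.of_injective x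
  exact SemidirectProduct.inl_injective.comp h1

theorem ev_injective (x : X) : Function.Injective (ev T x) := fun _ _ h =>
  e_injective T x (congrArg Subtype.val h)

theorem right_injective [IsEmpty X] :
    Function.Injective (SemidirectProduct.rightHom : T.TW →* Q) := by
  refine (injective_iff_map_eq_one _).2 (fun g hg => ?_)
  have h1 : ∀ z : NN X K, z = 1 := by
    intro z
    induction z using nn_ind with
    | one => rfl
    | gen x k => exact isEmptyElim x
    | mul a b ha hb => rw [ha, hb, one_mul]
  exact SemidirectProduct.ext (h1 g.left) hg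

theorem perm_mem (hC : Closed C) (hE : ExtClosed C) :
    C T.TW ↔ C Q ∧ ∀ x, C (vx T x) := by
  constructor
  · intro h
    exact ⟨hC.of_injective _ _ T.r (r_injective T) h, fun x => of_sub hC _ h⟩
  · rintro ⟨hQ, hv⟩
    rcases isEmpty_or_nonempty X with hX | ⟨⟨x0⟩⟩
    · exact hC.of_injective _ _ _ (right_injective T) hQ
    · refine T.mem hC hE hQ (hC.of_injective _ _ (ev T x0) (ev_injective T x0) (hv x0)) ?_
      intro q x hq
      refine ⟨vx T x, inferInstance, ev T x, ⟨T.r q, r_mem_vx hq⟩, hv x, ev_injective T x,
        fun k => Subtype.ext ?_⟩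
      change T.e x (T.c q x k) = T.r q * T.e x k * (T.r q)⁻¹
      rw [T.rel, hq]

theorem perm_tf : TF T.TW ↔ TF Q ∧ ∀ x, TF (vx T x) := by
  constructor
  · intro h
    exact ⟨TF.inj T.r (r_injective T) h, fun x => TF.inj _ (vx T x).subtype_injective h⟩
  · rintro ⟨hQ, hv⟩
    rcases isEmpty_or_nonempty X with hX | ⟨⟨x0⟩⟩
    · exact TF.inj _ (right_injective T) hQ
    · exact tf_tw T hQ (TF.inj (ev T x0) (ev_injective T x0) (hv x0))

end Pool.Agent.Q143.MV
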